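import Mathlib
import Pool.Agent.X317.PMC.Alg
import Pool.Agent.X317.Kos.Mon

/-!
# MP_4f2529_ag: arithmetically Cohen-Macaulay monomial curves with prescribed semigroup and type
-/

set_option autoImplicit false
set_option linter.all false

open Finset Pool.Agent.X317 Pool.Agent.X317.PMC MvPolynomial
open scoped Pointwise

namespace Pool.Agent.Results.MP_4f2529_ag.PrescribedSemigroup

/-- The pseudo-Frobenius numbers of a submonoid `T` of `ℕ`: the integers `x ∉ T` with `x + s ∈ T` for
all `s ∈ T \ {0}`. -/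
def pseudoFrobenius (T : AddSubmonoid ℕ) : Set ℤ :=
  {x | x ∉ ((↑) : ℕ → ℤ) '' (T : Set ℕ) ∧
    ∀ s ∈ T, s ≠ 0 → x + (s : ℤ) ∈ ((↑) : ℕ → ℤ) '' (T : Set ℕ)}

/-- The type of a numerical semigroup. -/
noncomputable def semigroupType (T : AddSubmonoid ℕ) : ℕ := (pseudoFrobenius T).ncard

/-- `a 0 < a 1 < … < a n` are the exponents of a projective monomial curve: `a 0 = 0` and the greatest
common divisor of the `a i` is `1`. -/
structure IsCurve {n : ℕ} (a : Fin (n + 1) → ℕ) : Prop where
  strictMono : StrictMono a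
  zero : a 0 = 0
  gcd : Finset.univ.gcd a = 1

/-- The parametrisation `k[x_0, …, x_n] → k[u, v]`, `x_i ↦ u ^ (a i) * v ^ (d - a i)`, `d = a n`. -/
noncomputable def param (k : Type*) [Field k] {n : ℕ} (a : Fin (n + 1) → ℕ) :
    MvPolynomial (Fin (n + 1)) k →ₐ[k] MvPolynomial (Fin 2) k :=
  aeval fun i => X 0 ^ (a i) * X 1 ^ (a (Fin.last n) - a i)

/-- The homogeneous coordinate ring `k[C]` of the curve, as the quotient of `k[x_0, …, x_n]` by the
kernel of the parametrisation. -/
abbrev coordRing (k : Type*) [Field k] {n : ℕ} (a : Fin (n + 1) → ℕ) : Type _ :=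
  MvPolynomial (Fin (n + 1)) k ⧸ RingHom.ker (param k a)

/-- The homogeneous maximal ideal of `k[C]`. -/
noncomputable def irrelevant (k : Type*) [Field k] {n : ℕ} (a : Fin (n + 1) → ℕ) :
    Ideal (coordRing k a) :=
  Ideal.span (Set.range fun i => (Ideal.Quotient.mk _ (X i) : coordRing k a))

/-- The curve is arithmetically Cohen-Macaulay: the homogeneous maximal ideal of the two-dimensional
ring `k[C]` contains a regular sequence of length two. -/
def IsACM (k : Type*) [Field k] {n : ℕ} (a : Fin (n + 1) → ℕ) : Prop :=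
  ∃ f ∈ irrelevant k a, ∃ g ∈ irrelevant k a, RingTheory.Sequence.IsRegular (coordRing k a) [f, g]

/-- The Betti number `β_i = dim_k Tor_i(k[C], k)` over `k[x_0, …, x_n]`, the rank of the `i`-th free
module in the minimal graded free resolution of `k[C]`. -/
noncomputable def betti (k : Type*) [Field k] {n : ℕ} (a : Fin (n + 1) → ℕ) (i : ℕ) : ℕ :=
  Kos.betti k (n := n + 1) (coordRing k a) i

/-- The type of an arithmetically Cohen-Macaulay curve: `β_{n-1}`. -/
noncomputable def curveType (k : Type*) [Field k] {n : ℕ} (a : Fin (n + 1) → ℕ) : ℕ :=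
  betti k a (n - 1)

section Curve

variable {T : AddSubmonoid ℕ} {c f0 N ρ δ D n : ℕ} (h : Dat T c f0 N ρ δ D)
  {a : Fin (n + 1 + 1) → ℕ} (hmono : StrictMono a) (ha : ∀ b, (∃ i, a i = b) ↔ AA T N ρ δ D b)

theorem AA_zero (h : Dat T c f0 N ρ δ D) : AA T N ρ δ D 0 := Or.inl (V_zero h)

include h hmono ha

theorem a_zero : a 0 = 0 := by
  obtain ⟨i, hi⟩ := (ha 0).2 (AA_zero h)
  have := hmono.monotone (Fin.zero_le i)
  omega

theorem a_last : a (Fin.last (n + 1)) = D := by
  obtain ⟨i, hi⟩ := (ha D).2 (Or.inr rfl)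
  have h1 := hmono.monotone (Fin.le_last i)
  have h2 := AA_le h ((ha _).1 ⟨Fin.last (n + 1), rfl⟩)
  omega

theorem param_X (k : Type*) [Field k] (i : Fin (n + 1 + 1)) :
    param k a (X i) = monomial (ex (a i) (D - a i)) 1 := by
  have h1 : param k a (X i) = X 0 ^ (a i) * X 1 ^ (a (Fin.last (n + 1)) - a i) := aeval_X _ _
  rw [h1, a_last h hmono ha, X_pow_eq_monomial, X_pow_eq_monomial, monomial_mul, one_mul]
  rfl

theorem range_iff (k : Type*) [Field k] (g : MvPolynomial (Fin 2) k) :
    g ∈ (param k a).range ↔ ∀ α β, coeff (ex α β) g ≠ 0 → QQ T N ρ δ D α β := by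
  classical
  constructor
  · rintro ⟨b, rfl⟩
    change ∀ α β, coeff (ex α β) (param k a b) ≠ 0 → QQ T N ρ δ D α β
    induction b using MvPolynomial.induction_on with
    | C r =>
      intro α β hd
      have h1 : param k a (C r) = C r := aeval_C _ _
      rw [h1, coeff_C] at hd
      split_ifs at hd with h2
      · have h3 : ex 0 0 = 0 := by
          unfold ex
          rw [Finsupp.single_zero, Finsupp.single_zero, add_zero]
        rw [← h3] at h2
        obtain ⟨rfl, rfl⟩ := ex_inj h2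
        exact ⟨0, by omega, W_zero h⟩
      · exact absurd rfl hd
    | add b b' hb hb' =>
      intro α β hd
      by_contra h0
      apply hd
      rw [map_add, coeff_add]
      have h1 : coeff (ex α β) (param k a b) = 0 := by
        by_contra h2
        exact h0 (hb α β h2)
      have h2 : coeff (ex α β) (param k a b') = 0 := by
        by_contra h2
        exact h0 (hb' α β h2)
      rw [h1, h2, add_zero]
    | mul_X b i hb =>
      intro α β hd
      rw [map_mul, param_X h hmono ha, mul_comm, coeff_mono_mul] at hd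
      split_ifs at hd with h2
      · obtain ⟨m, hm, hW⟩ := hb _ _ hd
        have h3 := (ha _).1 ⟨i, rfl⟩
        refine ⟨m + 1, ?_, ?_⟩
        · have := AA_le h h3
          rw [add_mul, one_mul]
          omega
        · have h4 := W_step h h3 hW
          have h5 : α - a i + a i = α := by omega
          rwa [h5] at h4
      · exact absurd rfl hd
  · intro hg
    have key : ∀ m α, W T N ρ δ D m α → α ≤ m * D ∧
        (monomial (ex α (m * D - α)) 1 : MvPolynomial (Fin 2) k) ∈ (param k a).range := by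
      refine W_ind h ?_ ?_
      · refine ⟨by omega, ?_⟩
        have h3 : ex 0 (0 * D - 0) = 0 := by
          unfold ex
          rw [zero_mul, Nat.sub_zero, Finsupp.single_zero, Finsupp.single_zero, add_zero]
        rw [h3]
        exact one_mem _
      · rintro m α b hb ⟨h1, h2⟩
        obtain ⟨i, rfl⟩ := (ha b).2 hb
        have h3 := AA_le h hb
        have h4 : (m + 1) * D = m * D + D := by ring
        refine ⟨by omega, ?_⟩
        have h5 : (monomial (ex (α + a i) ((m + 1) * D - (α + a i))) 1 : MvPolynomial (Fin 2) k) =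
            monomial (ex α (m * D - α)) 1 * monomial (ex (a i) (D - a i)) 1 := by
          have e1 : (m + 1) * D - (α + a i) = m * D - α + (D - a i) := by omega
          rw [monomial_mul, one_mul, ex_add, e1]
        rw [h5]
        exact mul_mem h2 ⟨X i, param_X h hmono ha k i⟩
    rw [g.as_sum]
    refine sum_mem fun e he => ?_
    rw [mem_support_iff, ← ex_eta e] at he
    obtain ⟨m, hm, hW⟩ := hg _ _ he
    have h1 := (key m _ hW).2
    have h2 : m * D - e 0 = e 1 := by omega
    rw [h2, ex_eta] at h1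
    have h3 : monomial e (coeff e g) = C (coeff e g) * monomial e 1 := by
      rw [C_mul_monomial, mul_one]
    rw [h3]
    exact mul_mem ⟨C (coeff e g), aeval_C _ _⟩ h1

end Curve

/-- the embedding of `k[C]` in `k[u, v]` -/
noncomputable def iota (k : Type*) [Field k] {n : ℕ} (a : Fin (n + 1) → ℕ) :
    coordRing k a →ₗ[k] MvPolynomial (Fin 2) k :=
  (Ideal.kerLiftAlg (param k a)).toLinearMap

theorem iota_mk (k : Type*) [Field k] {n : ℕ} (a : Fin (n + 1) → ℕ)
    (b : MvPolynomial (Fin (n + 1)) k) :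
    iota k a (Ideal.Quotient.mk _ b) = param k a b := rfl

theorem iota_smul (k : Type*) [Field k] {n : ℕ} (a : Fin (n + 1) → ℕ)
    (b : MvPolynomial (Fin (n + 1)) k) (m : coordRing k a) :
    iota k a (b • m) = param k a b * iota k a m := by
  obtain ⟨m, rfl⟩ := Ideal.Quotient.mk_surjective m
  have h : b • (Ideal.Quotient.mk (RingHom.ker (param k a)) m) = Ideal.Quotient.mk _ (b * m) := rfl
  rw [h, iota_mk, iota_mk, map_mul]

theorem iota_mul (k : Type*) [Field k] {n : ℕ} (a : Fin (n + 1) → ℕ) (b m : coordRing k a) :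
    iota k a (b * m) = iota k a b * iota k a m := map_mul (Ideal.kerLiftAlg (param k a)) b m

theorem iota_injective (k : Type*) [Field k] {n : ℕ} (a : Fin (n + 1) → ℕ) :
    Function.Injective (iota k a) := by
  rw [injective_iff_map_eq_zero]
  intro b hb
  obtain ⟨b, rfl⟩ := Ideal.Quotient.mk_surjective b
  rw [iota_mk] at hb
  exact Ideal.Quotient.eq_zero_iff_mem.2 hb

section Main

variable {T : AddSubmonoid ℕ} {c f0 N ρ δ D n : ℕ} (h : Dat T c f0 N ρ δ D)
  {a : Fin (n + 1 + 1) → ℕ} (hmono : StrictMono a) (ha : ∀ b, (∃ i, a i = b) ↔ AA T N ρ δ D b)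

include h hmono ha

theorem sit (hn : 1 ≤ n) (k : Type*) [Field k] :
    Sit (n := n) T c f0 N ρ δ D
      (fun v => (X (Equiv.swap 1 (Fin.last (n + 1)) v) : MvPolynomial (Fin (n + 1 + 1)) k))
      (fun v => a (Equiv.swap 1 (Fin.last (n + 1)) v)) (iota k a) := by
  have h0 : Equiv.swap (1 : Fin (n + 1 + 1)) (Fin.last (n + 1)) 0 = 0 := by
    refine Equiv.swap_apply_of_ne_of_ne ?_ ?_
    · intro h1
      have := congrArg Fin.val h1
      rw [Fin.val_zero, Fin.val_one] at this
      omega
    · intro h1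
      have := congrArg Fin.val h1
      rw [Fin.val_zero, Fin.val_last] at this
      omega
  have h1 : Equiv.swap (1 : Fin (n + 1 + 1)) (Fin.last (n + 1)) 1 = Fin.last (n + 1) :=
    Equiv.swap_apply_left _ _
  refine ⟨h, iota_injective k a, ?_, ?_, ?_, ?_, ?_, ?_⟩
  · intro g
    rw [← range_iff h hmono ha]
    constructor
    · rintro ⟨m, rfl⟩
      obtain ⟨b, rfl⟩ := Ideal.Quotient.mk_surjective m
      exact ⟨b, rfl⟩
    · rintro ⟨b, rfl⟩
      exact ⟨Ideal.Quotient.mk _ b, rfl⟩
  · intro v m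
    rw [iota_smul, param_X h hmono ha]
  · show a (Equiv.swap 1 (Fin.last (n + 1)) 0) = 0
    rw [h0]
    exact a_zero h hmono ha
  · show a (Equiv.swap 1 (Fin.last (n + 1)) 1) = D
    rw [h1]
    exact a_last h hmono ha
  · intro j
    refine ⟨(ha _).1 ⟨_, rfl⟩, fun h2 => ?_⟩
    have h3 := (Equiv.swap (1 : Fin (n + 1 + 1)) (Fin.last (n + 1))).injective
      ((hmono.injective (h2.trans (a_zero h hmono ha).symm)).trans h0.symm)
    exact Fin.succ_ne_zero _ h3
  · intro b hb hb0 hbD
    obtain ⟨i, rfl⟩ := (ha b).2 hb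
    obtain ⟨v, rfl⟩ := (Equiv.swap (1 : Fin (n + 1 + 1)) (Fin.last (n + 1))).surjective i
    induction v using Fin.cases with
    | zero =>
      exfalso
      apply hb0
      rw [h0]
      exact a_zero h hmono ha
    | succ v =>
      induction v using Fin.cases with
      | zero =>
        exfalso
        apply hbD
        have h2 : (Fin.succ 0 : Fin (n + 1 + 1)) = 1 := rfl
        rw [h2, h1]
        exact a_last h hmono ha
      | succ j => exact ⟨j, rfl⟩

theorem curveType_eq (hn : 1 ≤ n) (k : Type*) [Field k] (F : Finset ℕ)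
    (hF : ∀ f, f ∈ F ↔ IsPF T f) : curveType k a = F.card := by
  have h1 := finrank_type (sit h hmono ha hn k) F hF
  rw [← h1]
  exact Sem.finrank_perm (M := coordRing k a) (Equiv.swap 1 (Fin.last (n + 1)))
    (fun v => (X v : MvPolynomial (Fin (n + 1 + 1)) k)) n

theorem betti_above (hn : 1 ≤ n) (k : Type*) [Field k] (i : ℕ) (hi : n + 1 ≤ i) :
    betti k a i = 0 := by
  have h1 := finrank_above (sit h hmono ha hn k) i hi
  rw [← h1]
  exact Sem.finrank_perm (M := coordRing k a) (Equiv.swap 1 (Fin.last (n + 1)))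
    (fun v => (X v : MvPolynomial (Fin (n + 1 + 1)) k)) i

theorem isACM (hn : 1 ≤ n) (k : Type*) [Field k] : IsACM k a := by
  have S := sit h hmono ha hn k
  have hD := D_pos S
  obtain ⟨r0, hr0⟩ : ∃ r0 : coordRing k a, r0 = Ideal.Quotient.mk _
    (X (Equiv.swap 1 (Fin.last (n + 1)) 0)) := ⟨_, rfl⟩
  obtain ⟨r1, hr1⟩ : ∃ r1 : coordRing k a, r1 = Ideal.Quotient.mk _
    (X (Equiv.swap 1 (Fin.last (n + 1)) 1)) := ⟨_, rfl⟩
  have hs0 : ∀ m : coordRing k a, (X (Equiv.swap 1 (Fin.last (n + 1)) 0) :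
      MvPolynomial (Fin (n + 1 + 1)) k) • m = r0 * m := by
    intro m
    rw [hr0, Algebra.smul_def]
    rfl
  have hs1 : ∀ m : coordRing k a, (X (Equiv.swap 1 (Fin.last (n + 1)) 1) :
      MvPolynomial (Fin (n + 1 + 1)) k) • m = r1 * m := by
    intro m
    rw [hr1, Algebra.smul_def]
    rfl
  refine ⟨r0, hr0 ▸ Ideal.subset_span ⟨_, rfl⟩, r1, hr1 ▸ Ideal.subset_span ⟨_, rfl⟩, ?_⟩
  rw [RingTheory.Sequence.isRegular_iff]
  refine ⟨?_, ?_⟩
  · rw [RingTheory.Sequence.isWeaklyRegular_cons_iff, RingTheory.Sequence.isWeaklyRegular_singleton_iff]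
    constructor
    · intro m m' hm
      have hm' : r0 * m = r0 * m' := hm
      rw [← sub_eq_zero]
      apply reg0 S
      rw [hs0, mul_sub, hm', sub_self]
    · intro m m' hm
      rw [← sub_eq_zero]
      obtain ⟨m, rfl⟩ := Submodule.mkQ_surjective _ m
      obtain ⟨m', rfl⟩ := Submodule.mkQ_surjective _ m'
      rw [← map_sub, Submodule.mkQ_apply, Submodule.Quotient.mk_eq_zero,
        Submodule.mem_smul_pointwise_iff_exists]
      have h1 : r1 • (m - m') ∈ r0 • (⊤ : Submodule (coordRing k a) (coordRing k a)) := by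
        rw [← Submodule.Quotient.mk_eq_zero, smul_sub, Submodule.Quotient.mk_sub, sub_eq_zero]
        exact hm
      rw [Submodule.mem_smul_pointwise_iff_exists] at h1
      obtain ⟨b, -, hb⟩ := h1
      obtain ⟨b', hb'⟩ := reg1 S (m - m') b (by rw [hs0, hs1]; exact hb.symm)
      rw [hs0] at hb'
      exact ⟨b', Submodule.mem_top, hb'.symm⟩
  · intro h1
    have h2 : (1 : coordRing k a) ∈ Ideal.ofList [r0, r1] • (⊤ : Ideal (coordRing k a)) := by
      rw [← h1]
      exact Submodule.mem_top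
    rw [smul_eq_mul, Ideal.mul_top] at h2
    have h3 : Ideal.ofList [r0, r1] ≤ Ideal.span {r0, r1} := by
      refine Ideal.span_mono ?_
      intro x hx
      simpa using hx
    obtain ⟨b, b', hb⟩ := Ideal.mem_span_pair.1 (h3 h2)
    rw [mul_comm b, mul_comm b', ← hs0, ← hs1] at hb
    have h4 := congrArg (fun z => coeff (ex 0 0) (iota k a z)) hb
    have h5 := smul0 S b
    have h6 := smul1 S b'
    simp only [map_add, coeff_add] at h4
    rw [h5, h6, coeff_mono_mul, coeff_mono_mul, if_neg (by omega), if_neg (by omega), add_zero] at h4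
    have h7 : iota k a 1 = 1 := map_one (Ideal.kerLiftAlg (param k a))
    have h8 : ex 0 0 = 0 := by
      unfold ex
      rw [Finsupp.single_zero, Finsupp.single_zero, add_zero]
    rw [h7, h8, coeff_zero_one] at h4
    exact zero_ne_one h4

end Main

/-- the data for a given semigroup -/
theorem exists_dat (T : AddSubmonoid ℕ) (hT : ((T : Set ℕ)ᶜ).Finite) (hne : T ≠ ⊤) :
    ∃ c f0 N ρ δ D, Dat T c f0 N ρ δ D := by
  classical
  have hex : ∃ c, ∀ x, c ≤ x → x ∈ T := by
    obtain ⟨B, hB⟩ := hT.bddAbove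
    refine ⟨B + 1, fun x hx => ?_⟩
    by_contra h
    have := hB h
    omega
  obtain ⟨c, hc, hmin⟩ : ∃ c, (∀ x, c ≤ x → x ∈ T) ∧ ∀ c', c' < c → ¬ ∀ x, c' ≤ x → x ∈ T :=
    ⟨Nat.find hex, Nat.find_spec hex, fun c' h => Nat.find_min hex h⟩
  have hc0 : 1 ≤ c := by
    by_contra h
    apply hne
    rw [eq_top_iff]
    intro x _
    exact hc x (by omega)
  have hF : c - 1 ∉ T := by
    intro h
    refine hmin (c - 1) (by omega) fun x hx => ?_
    by_cases h1 : x = c - 1
    · rwa [h1]
    · exact hc x (by omega)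
  have hc2 : 2 ≤ c := by
    by_contra h
    have : c - 1 = 0 := by omega
    rw [this] at hF
    exact hF T.zero_mem
  have hpf : IsPF T (c - 1) := ⟨hF, fun s hs hs0 => hc _ (by omega)⟩
  have hex' : ∃ f, IsPF T f := ⟨_, hpf⟩
  obtain ⟨f0, hf0, hf0min⟩ : ∃ f0, IsPF T f0 ∧ ∀ f, IsPF T f → f0 ≤ f :=
    ⟨Nat.find hex', Nat.find_spec hex', fun f h => Nat.find_min' hex' h⟩
  refine ⟨c, f0, 2 * c, 4 * c + f0 - 1, 30 * c, 60 * c - (4 * c + f0 - 1), hc, hc2, hF, hf0, hf0min,
    le_rfl, by omega, by omega, ?_⟩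
  have := hf0min _ hpf
  omega

/-- the pseudo-Frobenius numbers are natural numbers -/
theorem pseudoFrobenius_eq {T : AddSubmonoid ℕ} {c f0 N ρ δ D : ℕ} (h : Dat T c f0 N ρ δ D) :
    pseudoFrobenius T = ((↑) : ℕ → ℤ) '' {f | IsPF T f} := by
  ext x
  constructor
  · rintro ⟨h1, h2⟩
    have hc2 := h.c2
    have hx : 0 ≤ x := by
      by_contra hx
      obtain ⟨s, hs⟩ : ∃ s : ℕ, (s : ℤ) = (c : ℤ) - 1 - x := ⟨((c : ℤ) - 1 - x).toNat, by omega⟩
      obtain ⟨m, hm, hm'⟩ := h2 s (h.hc s (by omega)) (by omega)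
      have : m = c - 1 := by omega
      rw [this] at hm
      exact h.hF hm
    obtain ⟨f, rfl⟩ := Int.eq_ofNat_of_zero_le hx
    refine ⟨f, ⟨fun hf => h1 ⟨f, hf, rfl⟩, fun s hs hs0 => ?_⟩, rfl⟩
    obtain ⟨m, hm, hm'⟩ := h2 s hs hs0
    have : m = f + s := by omega
    rw [← this]
    exact hm
  · rintro ⟨f, ⟨hf, hf'⟩, rfl⟩
    refine ⟨?_, fun s hs hs0 => ⟨f + s, hf' s hs hs0, by push_cast; ring⟩⟩
    rintro ⟨m, hm, hm'⟩
    have : m = f := by exact_mod_cast hm'
    rw [this] at hm
    exact hf hm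

/-- **Every numerical semigroup of type `t > 1` is the semigroup of an arithmetically
Cohen-Macaulay projective monomial curve of type `t`.** -/
theorem result (T : AddSubmonoid ℕ) (hT : ((T : Set ℕ)ᶜ).Finite) (t : ℕ) (ht : 1 < t)
    (htype : semigroupType T = t) :
    ∃ (n : ℕ) (a : Fin (n + 1) → ℕ), IsCurve a ∧ AddSubmonoid.closure (Set.range a) = T ∧
      ∀ (k : Type*) [Field k], IsACM k a ∧ (∀ i, n ≤ i → betti k a i = 0) ∧
        curveType k a = t := by
  classical
  have hne : T ≠ ⊤ := by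
    rintro rfl
    have h1 : pseudoFrobenius ⊤ ⊆ {-1} := by
      rintro x ⟨h1, h2⟩
      obtain ⟨m, -, hm⟩ := h2 1 (AddSubmonoid.mem_top _) one_ne_zero
      have h3 : ¬ 0 ≤ x := fun h3 => h1 ⟨x.toNat, AddSubmonoid.mem_top _, by omega⟩
      rw [Set.mem_singleton_iff]
      push_cast at hm
      omega
    have h2 := Set.ncard_le_ncard h1 (Set.finite_singleton _)
    rw [Set.ncard_singleton] at h2
    unfold semigroupType at htype
    omega
  obtain ⟨c, f0, N, ρ, δ, D, h⟩ := exists_dat T hT hne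
  have hDge := D_ge h
  have hc2 := h.c2
  have hδ := h.hδ
  -- the exponents
  obtain ⟨E, hE⟩ : ∃ E : Finset ℕ, ∀ b, b ∈ E ↔ AA T N ρ δ D b := by
    refine ⟨(range (D + 1)).filter (AA T N ρ δ D), fun b => ?_⟩
    rw [Finset.mem_filter, Finset.mem_range]
    exact ⟨fun h1 => h1.2, fun h1 => ⟨by have := AA_le h h1; omega, h1⟩⟩
  have hc1 : AA T N ρ δ D c :=
    Or.inl ⟨h.hc _ le_rfl, δ - c, U_large h (by omega), by omega⟩
  have hsub : ({0, c, D} : Finset ℕ) ⊆ E := by
    intro b hb
    rw [Finset.mem_insert, Finset.mem_insert, Finset.mem_singleton] at hb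
    rw [hE]
    rcases hb with rfl | rfl | rfl
    · exact Or.inl (V_zero h)
    · exact hc1
    · exact Or.inr rfl
  have hcard : 3 ≤ E.card := by
    have h1 : ({0, c, D} : Finset ℕ).card = 3 := by
      rw [Finset.card_insert_of_notMem, Finset.card_insert_of_notMem, Finset.card_singleton]
      · rw [Finset.mem_singleton]
        omega
      · rw [Finset.mem_insert, Finset.mem_singleton]
        omega
    rw [← h1]
    exact Finset.card_le_card hsub
  obtain ⟨n, hn⟩ : ∃ n, E.card = n + 1 + 1 := ⟨E.card - 2, by omega⟩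
  have hn1 : 1 ≤ n := by omega
  let a : Fin (n + 1 + 1) → ℕ := E.orderEmbOfFin hn
  have hmono : StrictMono a := (E.orderEmbOfFin hn).strictMono
  have ha : ∀ b, (∃ i, a i = b) ↔ AA T N ρ δ D b := by
    intro b
    rw [← hE]
    have h1 := Finset.range_orderEmbOfFin E hn
    have h2 : b ∈ Set.range (E.orderEmbOfFin hn) ↔ b ∈ (E : Set ℕ) := by rw [h1]
    exact h2
  have hclos : AddSubmonoid.closure (Set.range a) = T := closure_eq h _ fun b => ha b
  refine ⟨n + 1, a, ⟨hmono, a_zero h hmono ha, ?_⟩, hclos, fun k _ => ⟨isACM h hmono ha hn1 k,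
    betti_above h hmono ha hn1 k, ?_⟩⟩
  · have h1 : ∀ x ∈ T, Finset.univ.gcd a ∣ x := by
      intro x hx
      rw [← hclos] at hx
      induction hx using AddSubmonoid.closure_induction with
      | mem y hy =>
        obtain ⟨i, rfl⟩ := hy
        exact Finset.gcd_dvd (Finset.mem_univ i)
      | zero => exact dvd_zero _
      | add y z _ _ hy hz => exact dvd_add hy hz
    have h2 := h1 c (h.hc c le_rfl)
    have h3 := h1 (c + 1) (h.hc _ (by omega))
    exact Nat.dvd_one.1 ((Nat.dvd_add_right h2).1 h3)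
  · obtain ⟨F, hF⟩ : ∃ F : Finset ℕ, ∀ f, f ∈ F ↔ IsPF T f := by
      refine ⟨(range c).filter (IsPF T), fun f => ?_⟩
      rw [Finset.mem_filter, Finset.mem_range]
      exact ⟨fun h1 => h1.2, fun h1 => ⟨pf_lt h h1.1, h1⟩⟩
    rw [curveType_eq h hmono ha hn1 k F hF, ← htype]
    unfold semigroupType
    rw [pseudoFrobenius_eq h, Set.ncard_image_of_injective _ Nat.cast_injective]
    have h1 : {f | IsPF T f} = (F : Set ℕ) := by
      ext f
      exact (hF f).symm
    rw [h1, Set.ncard_coe_finset]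

end Pool.Agent.Results.MP_4f2529_ag.PrescribedSemigroup
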